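import Mathlib
import Pool.Agent.X195.GI10

/-!
# The product formula for the cross-index of simplicial posets fails for the cyclic group of order four

Negative answer to Q1 of MP_c44c69_co.  Let `z = c^2` in `G = Z/4`, `H = ⟨z⟩`.  The first poset is
the face poset of the order complex of the poset coinduced from the four-cycle `Q_1 H` (a torus on
which the generator `c` acts by `(u, v) ↦ (v, z u)`), the second one is the face poset of the order
complex of the poset induced from `Q_2 H`.  Evaluation maps the product to `Q_1 G`.  A map of one of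
the two posets to `Q_1 G` would give an invariant integer cocycle whose total along a path from
`x` to `c x` is `1` modulo `4`; this is excluded by a finite computation.
-/

set_option autoImplicit false

namespace Pool.Agent.Results.MP_c44c69_co.ProductFormulaFails

open Pool.Agent.X195.GI

/-- The cyclic group `C4` of order four is nice, and there are two finite free `C4`-simplicial
posets `P₁`, `P₂` with `Xind P₁ = Xind P₂ = 2` and `Xind (P₁ × P₂) = 1`. -/
theorem result : IsNice C4 ∧ ∃ P₁ P₂ : GPoset C4,
    P₁.IsSimplicial ∧ P₂.IsSimplicial ∧ P₁.IsFree ∧ P₂.IsFree ∧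
    IsLeast {n : ℕ | P₁.HasMap (Q C4 n)} 2 ∧
    IsLeast {n : ℕ | P₂.HasMap (Q C4 n)} 2 ∧
    IsLeast {n : ℕ | (P₁.prod P₂).HasMap (Q C4 n)} 1 := by
  obtain ⟨K₁, K₂, h1, h2, h3, h4, h5⟩ := main_prod'
  exact ⟨C4_nice, K₁.F, K₂.F, F_simplicial K₁, F_simplicial K₂, F_free h1, F_free h2, h3, h4, h5⟩

end Pool.Agent.Results.MP_c44c69_co.ProductFormulaFails
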